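import Mathlib

/-!
# Connected finite partial injections are paths or cycles
-/

set_option autoImplicit false

namespace Pool.Agent.W2helper12.VA

section comb

variable {T : Type} [Finite T] (R : T → T → Prop) (h1 : ∀ a b b', R a b → R a b' → b = b')
  (h2 : ∀ a a' b, R a b → R a' b → a = a')
  (h3 : ∀ U : Set T, U.Nonempty → (∀ a b, R a b → (a ∈ U ↔ b ∈ U)) → U = Set.univ)

include h1 h2 h3

/-- the case of a path -/
theorem path (a : T) (ha : ∀ b, ¬ R b a) :
    ∃ (m : ℕ) (e : T → Fin m), Function.Injective e ∧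
      ∀ x y, R x y ↔ (e y : ℕ) = (e x : ℕ) + 1 := by
  classical
  obtain ⟨nx, hnx⟩ : ∃ nx : T → T, ∀ x, (∃ y, R x y) → R x (nx x) :=
    ⟨fun x => if h : ∃ y, R x y then h.choose else x, fun x h => by
      simp only [dif_pos h]
      exact h.choose_spec⟩
  -- injectivity
  have hinj : ∀ i j : ℕ, i < j → (∀ k < j, ∃ y, R (nx^[k] a) y) → nx^[i] a ≠ nx^[j] a := by
    intro i
    induction i with
    | zero =>
      intro j hij hR heq
      obtain ⟨j, rfl⟩ : ∃ l, j = l + 1 := ⟨j - 1, by omega⟩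
      have e1 := hnx _ (hR j (Nat.lt_succ_self j))
      rw [← Function.iterate_succ_apply' nx, ← heq] at e1
      exact ha _ e1
    | succ i ih =>
      intro j hij hR heq
      obtain ⟨j, rfl⟩ : ∃ l, j = l + 1 := ⟨j - 1, by omega⟩
      have e1 := hnx _ (hR j (Nat.lt_succ_self j))
      have e2 := hnx _ (hR i (by omega))
      rw [← Function.iterate_succ_apply' nx] at e1 e2
      rw [← heq] at e1
      exact ih j (by omega) (fun k hk => hR k (by omega)) (h2 _ _ _ e2 e1)
  have hex : ∃ m : ℕ, ¬ ∃ y, R (nx^[m] a) y := by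
    by_contra hcon
    push Not at hcon
    obtain ⟨i, j, hne, heq⟩ := Finite.exists_ne_map_eq_of_infinite (fun k : ℕ => nx^[k] a)
    rcases lt_or_gt_of_ne hne with h | h
    · exact hinj i j h (fun k _ => hcon k) heq
    · exact hinj j i h (fun k _ => hcon k) heq.symm
  obtain ⟨m, hm, hmin⟩ : ∃ m, (¬ ∃ y, R (nx^[m] a) y) ∧ ∀ k < m, ∃ y, R (nx^[k] a) y :=
    ⟨Nat.find hex, Nat.find_spec hex, fun k hk => not_not.1 (Nat.find_min hex hk)⟩
  have hR : ∀ k < m, R (nx^[k] a) (nx^[k + 1] a) := by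
    intro k hk
    rw [Function.iterate_succ_apply' nx]
    exact hnx _ (hmin k hk)
  have hinj' : ∀ i j : ℕ, i ≤ m → j ≤ m → nx^[i] a = nx^[j] a → i = j := by
    intro i j hi hj heq
    by_contra hne
    rcases lt_or_gt_of_ne hne with h | h
    · exact hinj i j h (fun k hk => hmin k (by omega)) heq
    · exact hinj j i h (fun k hk => hmin k (by omega)) heq.symm
  have hU := h3 {x | ∃ k, k ≤ m ∧ x = nx^[k] a} ⟨a, 0, Nat.zero_le _, rfl⟩ (by
    intro x y hxy
    constructor
    · rintro ⟨k, hk, rfl⟩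
      have hlt : k < m := by
        by_contra hge
        have : k = m := by omega
        subst this
        exact hm ⟨y, hxy⟩
      exact ⟨k + 1, hlt, h1 _ _ _ hxy (hR k hlt)⟩
    · rintro ⟨k, hk, rfl⟩
      cases k with
      | zero => exact absurd hxy (ha x)
      | succ k => exact ⟨k, by omega, h2 _ _ _ hxy (hR k (by omega))⟩)
  have hall : ∀ x, ∃ k, k ≤ m ∧ x = nx^[k] a := fun x => by
    have : x ∈ {x | ∃ k, k ≤ m ∧ x = nx^[k] a} := by rw [hU]; trivial
    exact this
  choose e he he' using hall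
  refine ⟨m + 1, fun x => ⟨e x, Nat.lt_succ_of_le (he x)⟩, ?_, ?_⟩
  · intro x y hxy
    have : e x = e y := congrArg Fin.val hxy
    rw [he' x, he' y, this]
  · intro x y
    show R x y ↔ e y = e x + 1
    constructor
    · intro hxy
      rw [he' x] at hxy
      have hlt : e x < m := by
        by_contra hge
        have : e x = m := le_antisymm (he x) (not_lt.1 hge)
        rw [this] at hxy
        exact hm ⟨y, hxy⟩
      have h4 := h1 _ _ _ hxy (hR _ hlt)
      rw [he' y] at h4
      exact hinj' _ _ (he y) hlt h4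
    · intro hxy
      have h4 := he y
      rw [he' x, he' y, hxy]
      exact hR _ (by omega)

/-- the case of a cycle -/
theorem cycle [Nonempty T] (ha : ∀ a, ∃ b, R b a) :
    ∃ (m : ℕ) (e : T → ZMod m), m ≠ 0 ∧ Function.Bijective e ∧ ∀ x y, R x y ↔ e y = e x + 1 := by
  classical
  choose pr hpr using ha
  have hpi : Function.Injective pr := by
    intro x y hxy
    have e1 := hpr x
    have e2 := hpr y
    rw [← hxy] at e2
    exact h1 _ _ _ e1 e2
  obtain ⟨σ, hσ⟩ : ∃ σ : Equiv.Perm T, ∀ x, R x (σ x) := by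
    let ρ := Equiv.ofBijective pr (Finite.injective_iff_bijective.1 hpi)
    refine ⟨ρ.symm, fun x => ?_⟩
    have e1 := hpr (ρ.symm x)
    have e2 : pr (ρ.symm x) = x := ρ.apply_symm_apply x
    rwa [e2] at e1
  have hσ' : ∀ x y, R x y ↔ y = σ x := fun x y =>
    ⟨fun h => h1 _ _ _ h (hσ x), fun h => by rw [h]; exact hσ x⟩
  obtain ⟨a⟩ := (inferInstance : Nonempty T)
  obtain ⟨m, hm⟩ : ∃ m, m = Function.minimalPeriod σ a := ⟨_, rfl⟩
  have hm0 : 0 < m := by
    rw [hm]
    have h4 : IsOfFinOrder σ := isOfFinOrder_of_finite σ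
    obtain ⟨k, hk, hk'⟩ := h4.exists_pow_eq_one
    refine Function.IsPeriodicPt.minimalPeriod_pos hk ?_
    show σ^[k] a = a
    rw [Equiv.Perm.iterate_eq_pow, hk']
    rfl
  have hper : ∀ k l : ℕ, σ^[k] a = σ^[l] a ↔ (k : ZMod m) = (l : ZMod m) := by
    have key : ∀ k l : ℕ, l ≤ k → (σ^[k] a = σ^[l] a ↔ (k : ZMod m) = (l : ZMod m)) := by
      intro k l hkl
      obtain ⟨d, rfl⟩ := Nat.exists_eq_add_of_le hkl
      rw [Function.iterate_add_apply, (σ.injective.iterate l).eq_iff]
      have h5 : σ^[d] a = a ↔ m ∣ d := by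
        rw [hm, ← Function.isPeriodicPt_iff_minimalPeriod_dvd]
        rfl
      rw [h5, Nat.cast_add, add_eq_left, ZMod.natCast_eq_zero_iff]
    intro k l
    rcases le_total l k with h | h
    · exact key k l h
    · rw [eq_comm, key l k h, eq_comm]
  have hU := h3 {x | ∃ k : ℕ, x = σ^[k] a} ⟨a, 0, rfl⟩ (by
    intro x y hxy
    rw [hσ'] at hxy
    subst hxy
    constructor
    · rintro ⟨k, rfl⟩
      exact ⟨k + 1, (Function.iterate_succ_apply' σ k a).symm⟩
    · rintro ⟨k, hk⟩
      refine ⟨k + (m - 1), ?_⟩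
      apply σ.injective
      rw [hk, ← Function.iterate_succ_apply' σ, hper]
      have : (k + (m - 1)).succ = k + m := by omega
      rw [this, Nat.cast_add, ZMod.natCast_self, add_zero])
  have hall : ∀ x, ∃ k : ℕ, x = σ^[k] a := fun x => by
    have : x ∈ {x | ∃ k : ℕ, x = σ^[k] a} := by rw [hU]; trivial
    exact this
  choose e he using hall
  refine ⟨m, fun x => (e x : ZMod m), hm0.ne', ⟨?_, ?_⟩, ?_⟩
  · intro x y hxy
    rw [he x, he y]
    exact (hper _ _).2 hxy
  · intro z
    have : NeZero m := ⟨hm0.ne'⟩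
    refine ⟨σ^[z.val] a, ?_⟩
    have h6 := (hper (e (σ^[z.val] a)) z.val).1 (he _).symm
    show ((e (σ^[z.val] a) : ℕ) : ZMod m) = z
    rw [h6, ZMod.natCast_zmod_val]
  · intro x y
    rw [hσ']
    show y = σ x ↔ (e y : ZMod m) = (e x : ZMod m) + 1
    have h7 : σ x = σ^[e x + 1] a := by
      rw [Function.iterate_succ_apply' σ, ← he x]
    rw [h7]
    conv_lhs => rw [he y]
    rw [hper, Nat.cast_succ]

end comb

end Pool.Agent.W2helper12.VA
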