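import Pool.Agent.W2helper12.BW.Cl
import Pool.Agent.W2helper12.VA.Comb

/-!
# The Artin group of the arcs of a set
-/

set_option autoImplicit false

namespace Pool.Agent.W2helper12.VA

open Pool.Agent.Y110.FJ
open Pool.Agent.K7.H87.FJ6
open Pool.Agent.W2helper12.BW

/-- the arcs between different elements of a set -/
abbrev Arc (X : Type) : Type := {a : X × X // a.1 ≠ a.2}

/-- the reversed arc -/
def Arc.IsRev {X : Type} (a b : Arc X) : Prop := a.1.1 = b.1.2 ∧ a.1.2 = b.1.1

/-- the end of the first arc is the beginning of the second one, and the arcs are not the reverses of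
each other -/
def Arc.Next {X : Type} (a b : Arc X) : Prop := a.1.2 = b.1.1 ∧ a.1.1 ≠ b.1.2

/-- arcs without common points -/
def Arc.Apart {X : Type} (a b : Arc X) : Prop :=
  a.1.1 ≠ b.1.1 ∧ a.1.1 ≠ b.1.2 ∧ a.1.2 ≠ b.1.1 ∧ a.1.2 ≠ b.1.2

open Classical in
/-- the labels: `3` for consecutive arcs, `2` for arcs without common points, and infinity otherwise -/
noncomputable def arcM (X : Type) : CoxeterMatrix (Arc X) where
  M := Matrix.of fun a b =>
    if a = b then 1 else if a.Next b ∨ b.Next a then 3 else if a.Apart b then 2 else 0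
  isSymm := by
    ext a b
    simp only [Matrix.transpose_apply, Matrix.of_apply]
    have e1 : (b = a) = (a = b) := propext eq_comm
    have e2 : (b.Next a ∨ a.Next b) = (a.Next b ∨ b.Next a) := propext or_comm
    have e3 : b.Apart a = a.Apart b := propext ⟨fun h => ⟨h.1.symm, h.2.2.1.symm, h.2.1.symm,
      h.2.2.2.symm⟩, fun h => ⟨h.1.symm, h.2.2.1.symm, h.2.1.symm, h.2.2.2.symm⟩⟩
    simp only [e1, e2, e3]
  diagonal a := by simp
  off_diagonal a b h := by
    simp only [Matrix.of_apply, if_neg h]
    split_ifs <;> norm_num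

theorem arcM_apply {X : Type} (a b : Arc X) : arcM X a b =
    open Classical in
    if a = b then 1 else if a.Next b ∨ b.Next a then 3 else if a.Apart b then 2 else 0 := rfl

theorem arcM_next {X : Type} {a b : Arc X} (h : a.Next b ∨ b.Next a) : arcM X a b = 3 := by
  classical
  have hne : a ≠ b := by
    rintro rfl
    rcases h with h | h
    · exact a.2 h.1.symm
    · exact a.2 h.1.symm
  rw [arcM_apply, if_neg hne, if_pos h]

theorem arcM_apart {X : Type} {a b : Arc X} (h : a.Apart b) : arcM X a b = 2 := by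
  classical
  have hne : a ≠ b := by
    rintro rfl
    exact h.1 rfl
  have h' : ¬ (a.Next b ∨ b.Next a) := by
    rintro (h' | h')
    · exact h.2.2.1 h'.1
    · exact h.2.1 h'.1.symm
  rw [arcM_apply, if_neg hne, if_neg h', if_pos h]

open Classical in
/-- the Coxeter matrix of type affine A: a cycle with `n + 3` vertices -/
noncomputable def affA (n : ℕ) : CoxeterMatrix (ZMod (n + 3)) where
  M := Matrix.of fun i j => if i = j then 1 else if j = i + 1 ∨ i = j + 1 then 3 else 2
  isSymm := by
    ext i j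
    simp only [Matrix.transpose_apply, Matrix.of_apply]
    have e1 : (j = i) = (i = j) := propext eq_comm
    have e2 : (i = j + 1 ∨ j = i + 1) = (j = i + 1 ∨ i = j + 1) := propext or_comm
    simp only [e1, e2]
  diagonal i := by simp
  off_diagonal i j h := by
    simp only [Matrix.of_apply, if_neg h]
    split_ifs <;> norm_num

theorem affA_apply {n : ℕ} (i j : ZMod (n + 3)) : affA n i j =
    open Classical in
    if i = j then 1 else if j = i + 1 ∨ i = j + 1 then 3 else 2 := rfl

theorem adm_zero {B : Type} (M : CoxeterMatrix B) : Adm M (fun _ => 0) :=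
  ⟨fun _ => Even.zero, fun _ _ _ => rfl⟩

/-- label preserving injections -/
theorem C_emb {C : ∀ (G : Type) [Group G], Prop} (hC : ClosedE C) {A B : Type}
    (N : CoxeterMatrix A) (M : CoxeterMatrix B) (e : A → B) (he : Function.Injective e)
    (h : ∀ x y, M (e x) (e y) = N x y) (hM : C (Sh M fun _ => 0)) : C (Sh N fun _ => 0) := by
  have h1 : pull M e he = N := by
    apply CoxeterMatrix.ext
    ext x y
    exact h x y
  have h2 := hC.base.of_injective _ _ _ (Pool.Agent.W2helper25.AR.inc_inj (adm_zero M) e he) hM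
  rw [← h1]
  exact h2

/-- **the cliques are paths and cycles** -/
theorem clique_emb {C : ∀ (G : Type) [Group G], Prop} (hC : ClosedE C)
    (hA : ∀ n, C (Sh (CoxeterMatrix.A n) fun _ => 0)) (hA' : ∀ n, C (Sh (affA n) fun _ => 0))
    {X : Type} (T : Set (Arc X)) (hT : IrrClique (arcM X) T) :
    C (Sh (pull (arcM X) (Subtype.val : T → Arc X) Subtype.val_injective) fun _ => 0) := by
  classical
  have := hT.finite.to_subtype
  -- combinatorics of cliques
  have hlab : ∀ a ∈ T, ∀ b ∈ T, a ≠ b → (a.Next b ∨ b.Next a) ∨ a.Apart b := by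
    intro a ha b hb hne
    by_contra hcon
    push Not at hcon
    have h0 := hT.clique a ha b hb
    rw [arcM_apply, if_neg hne, if_neg (by tauto), if_neg hcon.2] at h0
    exact h0 rfl
  have hnx : ∀ a ∈ T, ∀ b ∈ T, a.1.2 = b.1.1 → a.Next b := by
    intro a ha b hb h
    have hne : a ≠ b := by
      rintro rfl
      exact a.2 h.symm
    rcases hlab a ha b hb hne with (h' | h') | h'
    · exact h'
    · exact absurd h.symm h'.2
    · exact absurd h h'.2.2.1
  have hsrc : ∀ a ∈ T, ∀ b ∈ T, a.1.1 = b.1.1 → a = b := by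
    intro a ha b hb h
    by_contra hne
    rcases hlab a ha b hb hne with (h' | h') | h'
    · exact a.2 (h.trans h'.1.symm)
    · exact b.2 (h.symm.trans h'.1.symm)
    · exact h'.1 h
  have htgt : ∀ a ∈ T, ∀ b ∈ T, a.1.2 = b.1.2 → a = b := by
    intro a ha b hb h
    by_contra hne
    rcases hlab a ha b hb hne with (h' | h') | h'
    · exact b.2 (h'.1.symm.trans h)
    · exact a.2 (h'.1.symm.trans h.symm)
    · exact h'.2.2.2 h
  obtain ⟨R, hR⟩ : ∃ R : T → T → Prop, ∀ a b, R a b ↔ a.1.1.2 = b.1.1.1 :=
    ⟨fun a b => a.1.1.2 = b.1.1.1, fun _ _ => Iff.rfl⟩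
  have hlabT : ∀ a b : T, arcM X a.1 b.1 = if a = b then 1 else if R a b ∨ R b a then 3 else 2 := by
    intro a b
    by_cases hab : a = b
    · rw [if_pos hab, hab, (arcM X).diagonal]
    · have hab' : a.1 ≠ b.1 := fun h => hab (Subtype.ext h)
      rw [if_neg hab]
      by_cases hn : R a b ∨ R b a
      · rw [if_pos hn]
        apply arcM_next
        rcases hn with h | h
        · exact Or.inl (hnx _ a.2 _ b.2 ((hR a b).1 h))
        · exact Or.inr (hnx _ b.2 _ a.2 ((hR b a).1 h))
      · rw [if_neg hn]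
        apply arcM_apart
        rcases hlab _ a.2 _ b.2 hab' with (h' | h') | h'
        · exact absurd (Or.inl ((hR a b).2 h'.1)) hn
        · exact absurd (Or.inr ((hR b a).2 h'.1)) hn
        · exact h'
  have h1 : ∀ a b b', R a b → R a b' → b = b' := by
    intro a b b' h h'
    rw [hR] at h h'
    exact Subtype.ext (hsrc _ b.2 _ b'.2 (h.symm.trans h'))
  have h2 : ∀ a a' b, R a b → R a' b → a = a' := by
    intro a a' b h h'
    rw [hR] at h h'
    exact Subtype.ext (htgt _ a.2 _ a'.2 (h.trans h'.symm))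
  have h3 : ∀ U : Set T, U.Nonempty → (∀ a b, R a b → (a ∈ U ↔ b ∈ U)) → U = Set.univ := by
    intro U hU hcl
    have h4 := hT.irr (Subtype.val '' U) (Subtype.val '' Uᶜ) (by
      rw [← Set.image_union, Set.union_compl_self, Set.image_univ, Subtype.range_coe])
      ((Set.disjoint_image_iff Subtype.val_injective).2 disjoint_compl_right) (by
      rintro _ ⟨a, ha, rfl⟩ _ ⟨b, hb, rfl⟩
      have hab : a ≠ b := by
        rintro rfl
        exact hb ha
      rw [hlabT, if_neg hab, if_neg]
      rintro (h | h)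
      · exact hb ((hcl _ _ h).1 ha)
      · exact hb ((hcl _ _ h).2 ha))
    rcases h4 with h4 | h4
    · rw [Set.image_eq_empty] at h4
      exact absurd h4 hU.ne_empty
    · rw [Set.image_eq_empty] at h4
      rw [← compl_compl U, h4, Set.compl_empty]
  by_cases hex : ∃ a, ∀ b, ¬ R b a
  · obtain ⟨a, ha⟩ := hex
    obtain ⟨m, e, he, hRe⟩ := path R h1 h2 h3 a ha
    refine C_emb hC _ (CoxeterMatrix.A m) e he (fun x y => ?_) (hA m)
    rw [pull_apply, hlabT]
    show (if e x = e y then 1 else (if (e y : ℕ) + 1 = e x ∨ (e x : ℕ) + 1 = e y then 3 else 2)) = _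
    have e1 : (e x = e y) = (x = y) := propext he.eq_iff
    have e2 : ((e y : ℕ) + 1 = e x ∨ (e x : ℕ) + 1 = e y) = (R x y ∨ R y x) := by
      rw [hRe, hRe]
      apply propext
      constructor
      · rintro (h | h)
        · exact Or.inr h.symm
        · exact Or.inl h.symm
      · rintro (h | h)
        · exact Or.inr h.symm
        · exact Or.inl h.symm
    simp only [e1, e2]
  · push Not at hex
    rcases isEmpty_or_nonempty T with hT0 | hT0
    · exact C_emb hC _ (CoxeterMatrix.A 0) (fun x => (hT0.false x).elim)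
        (fun x => (hT0.false x).elim) (fun x => (hT0.false x).elim) (hA 0)
    obtain ⟨m, e, hm, he, hRe⟩ := cycle R h1 h2 h3 hex
    -- the length of the cycle is at least three
    obtain ⟨x⟩ := hT0
    have hm1 : m ≠ 1 := by
      rintro rfl
      have h5 := (hRe x x).2 (Subsingleton.elim _ _)
      rw [hR] at h5
      exact x.1.2 h5.symm
    have hm2 : m ≠ 2 := by
      rintro rfl
      obtain ⟨y, hy⟩ := he.2 (e x + 1)
      have h5 := (hRe x y).2 hy
      have h6 := (hRe y x).2 (by
        rw [hy, add_assoc, show (1 : ZMod 2) + 1 = 0 from rfl, add_zero])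
      have h7 := hnx _ x.2 _ y.2 ((hR x y).1 h5)
      rw [hR] at h6
      exact h7.2 h6.symm
    obtain ⟨n, rfl⟩ : ∃ n, m = n + 3 := ⟨m - 3, by omega⟩
    refine C_emb hC _ (affA n) e he.1 (fun x y => ?_) (hA' n)
    rw [pull_apply, hlabT, affA_apply]
    have e1 : (e x = e y) = (x = y) := propext he.1.eq_iff
    have e2 : (e y = e x + 1 ∨ e x = e y + 1) = (R x y ∨ R y x) := by
      rw [hRe, hRe]
    simp only [e1, e2]

/-- **the Artin groups of arcs** -/
theorem arc_C {C : ∀ (G : Type) [Group G], Prop} (hC : ClosedE C)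
    (hW : ∀ (B : Type) [Finite B] (M : CoxeterMatrix B), C M.Group)
    (hA : ∀ n, C (Sh (CoxeterMatrix.A n) fun _ => 0)) (hA' : ∀ n, C (Sh (affA n) fun _ => 0))
    (X : Type) : C (Sh (arcM X) fun _ => 0) :=
  cliques hC hW (arcM X) (fun _ => 0) (adm_zero _) fun T hT => clique_emb hC hA hA' T hT

end Pool.Agent.W2helper12.VA
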