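import Pool.Agent.W2helper12.VA.KB
import Pool.Agent.Helper718.VB.VB3

/-!
# Virtual braid groups
-/

set_option autoImplicit false

namespace Pool.Agent.W2helper12.VA

open Pool.Agent.Y110.FJ
open Pool.Agent.Helper741 (alt alt_zero alt_two alt_one alt_succ map_alt)
open Pool.Agent.K7.H87.FJ6
open Pool.Agent.W2helper12.BW
open Pool.Agent.Helper718.VB
open Pool.Agent.Helper718.VB.VB2 (vbS vbS_sq vbS_braid vbS_comm)
open Pool.Agent.Helper718.VB.VB3 (r_sq s_braid s_comm perm2 perm3 perm4 pure_generators)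

theorem alt_three {G : Type} [Monoid G] (a b : G) : alt a b 3 = a * b * a := by
  rw [alt_succ, alt_two, mul_assoc]

section act

variable {X : Type}

/-- the action on the arcs -/
def mv (π : Equiv.Perm X) (a : Arc X) : Arc X := ⟨(π a.1.1, π a.1.2), fun h => a.2 (π.injective h)⟩

theorem mv_inj (π : Equiv.Perm X) {a b : Arc X} : mv π a = mv π b ↔ a = b := by
  constructor
  · intro h
    have e1 : π a.1.1 = π b.1.1 := congrArg (fun z : Arc X => z.1.1) h
    have e2 : π a.1.2 = π b.1.2 := congrArg (fun z : Arc X => z.1.2) h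
    exact Subtype.ext (Prod.ext (π.injective e1) (π.injective e2))
  · rintro rfl
    rfl

theorem arcM_mv (π : Equiv.Perm X) (a b : Arc X) : arcM X (mv π a) (mv π b) = arcM X a b := by
  classical
  have e1 : (mv π a = mv π b) = (a = b) := propext (mv_inj π)
  have e2 : ((mv π a).Next (mv π b) ∨ (mv π b).Next (mv π a)) = (a.Next b ∨ b.Next a) := by
    unfold Arc.Next mv
    simp only [π.injective.eq_iff, ne_eq]
  have e3 : (mv π a).Apart (mv π b) = a.Apart b := by
    unfold Arc.Apart mv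
    simp only [π.injective.eq_iff, ne_eq]
  rw [arcM_apply, arcM_apply]
  simp only [e1, e2, e3]

/-- the Artin group of the arcs -/
abbrev KB (X : Type) : Type := Sh (arcM X) fun _ => 0

/-- the automorphism given by a permutation -/
noncomputable def mvH (π : Equiv.Perm X) : KB X →* KB X :=
  Sh.lift (fun a => Sh.gen (arcM X) (fun _ => 0) (mv π a))
    (fun a b => by
      have := Sh.rel (M := arcM X) (p := fun _ => 0) (mv π a) (mv π b)
      rwa [arcM_mv] at this)
    (fun _ => pow_zero _)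

theorem mvH_gen (π : Equiv.Perm X) (a : Arc X) :
    mvH π (Sh.gen (arcM X) (fun _ => 0) a) = Sh.gen _ _ (mv π a) := Sh.lift_gen _ _ _ _

theorem mvH_one : mvH (1 : Equiv.Perm X) = MonoidHom.id _ := by
  apply Sh.hom_ext
  intro a
  rw [mvH_gen]
  rfl

theorem mvH_mul (π ρ : Equiv.Perm X) : mvH (π * ρ) = (mvH π).comp (mvH ρ) := by
  apply Sh.hom_ext
  intro a
  rw [MonoidHom.comp_apply, mvH_gen, mvH_gen, mvH_gen]
  rfl

/-- the action of the permutations on the Artin group of the arcs -/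
noncomputable def mvA : Equiv.Perm X →* MulAut (KB X) where
  toFun π := MonoidHom.toMulEquiv (mvH π) (mvH π⁻¹)
    (by rw [← mvH_mul, inv_mul_cancel, mvH_one]) (by rw [← mvH_mul, mul_inv_cancel, mvH_one])
  map_one' := by
    ext x
    show mvH 1 x = x
    rw [mvH_one]
    rfl
  map_mul' π ρ := by
    ext x
    show mvH (π * ρ) x = mvH π (mvH ρ x)
    rw [mvH_mul]
    rfl

theorem mvA_gen (π : Equiv.Perm X) (a : Arc X) :
    mvA π (Sh.gen (arcM X) (fun _ => 0) a) = Sh.gen _ _ (mv π a) := mvH_gen π a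

end act

/-- the extension of the Artin group by the symmetric group -/
abbrev VX (X : Type) : Type := KB X ⋊[mvA] Equiv.Perm X

theorem VX_C {C : ∀ (G : Type) [Group G], Prop} (hC : ClosedE C) (X : Type) [Finite X]
    (h : C (KB X)) : C (VX X) := by
  have h1 : Function.Injective (SemidirectProduct.inl : KB X →* VX X) :=
    SemidirectProduct.inl_injective
  have h2 : C (SemidirectProduct.inl : KB X →* VX X).range :=
    Pool.Agent.R941.FJ.C_equiv hC.base (MonoidHom.ofInjective h1).symm h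
  refine hC.base.finiteIndex _ _ ?_ h2
  rw [SemidirectProduct.range_inl_eq_ker_rightHom]
  infer_instance

/-- the arc of a generator -/
def ga {n : ℕ} (i : Fin (n - 1)) : Arc (Fin n) := ⟨(posL i, posR i), by
  intro h
  have := congrArg Fin.val h
  simp [posL, posR] at this⟩

theorem ga_fst {n : ℕ} (i : Fin (n - 1)) : (ga i).1.1 = posL i := rfl
theorem ga_snd {n : ℕ} (i : Fin (n - 1)) : (ga i).1.2 = posR i := rfl

theorem ga_next {n : ℕ} (i j : Fin (n - 1)) (h : (j : ℕ) = i + 1) : (ga i).Next (ga j) := by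
  refine ⟨Fin.ext h.symm, fun h' => ?_⟩
  have := congrArg Fin.val h'
  simp [ga, posL, posR] at this
  omega

theorem ga_apart {n : ℕ} (i j : Fin (n - 1)) (h : (i : ℕ) + 2 ≤ j ∨ (j : ℕ) + 2 ≤ i) :
    (ga i).Apart (ga j) := by
  refine ⟨fun h' => ?_, fun h' => ?_, fun h' => ?_, fun h' => ?_⟩ <;>
  · have := congrArg Fin.val h'
    simp [ga, posL, posR] at this
    omega

theorem gen_braid {X : Type} {a b : Arc X} (h : a.Next b) :
    Sh.gen (arcM X) (fun _ => 0) a * Sh.gen _ _ b * Sh.gen _ _ a =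
      Sh.gen _ _ b * Sh.gen _ _ a * Sh.gen _ _ b := by
  have := Sh.rel (M := arcM X) (p := fun _ => 0) a b
  rwa [arcM_next (Or.inl h), alt_three, alt_three] at this

theorem gen_comm {X : Type} {a b : Arc X} (h : a.Apart b) :
    Sh.gen (arcM X) (fun _ => 0) a * Sh.gen _ _ b = Sh.gen _ _ b * Sh.gen _ _ a := by
  have := Sh.rel (M := arcM X) (p := fun _ => 0) a b
  rwa [arcM_apart h, alt_two, alt_two] at this

/-- the images of the generators -/
noncomputable def fV (n : ℕ) : VGen n → VX (Fin n)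
  | .sigma i => SemidirectProduct.inl (Sh.gen _ _ (ga i))
  | .rho i => SemidirectProduct.inr (vbS i)

theorem inr_inl {X : Type} (π : Equiv.Perm X) (a : Arc X) :
    (SemidirectProduct.inr π : VX X) * SemidirectProduct.inl (Sh.gen _ _ a) =
      SemidirectProduct.inl (Sh.gen _ _ (mv π a)) * SemidirectProduct.inr π := by
  have h1 := SemidirectProduct.inl_aut (φ := mvA) π (Sh.gen (arcM X) (fun _ => 0) a)
  rw [mvA_gen] at h1
  rw [h1, mul_assoc, ← map_mul, inv_mul_cancel, map_one, mul_one]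

theorem fV_rel {n : ℕ} {u v : FreeGroup (VGen n)} (h : VRel n u v) :
    FreeGroup.lift (fV n) u = FreeGroup.lift (fV n) v := by
  cases h with
  | sigma_braid i j h =>
    simp only [map_mul, FreeGroup.lift_apply_of, fV]
    rw [← map_mul, ← map_mul, ← map_mul, ← map_mul, gen_braid (ga_next i j h)]
  | sigma_comm i j h =>
    simp only [map_mul, FreeGroup.lift_apply_of, fV]
    rw [← map_mul, ← map_mul, gen_comm (ga_apart i j h)]
  | rho_square i =>
    simp only [map_mul, FreeGroup.lift_apply_of, fV]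
    rw [← map_mul, vbS_sq, map_one, map_one]
  | rho_braid i j h =>
    simp only [map_mul, FreeGroup.lift_apply_of, fV]
    rw [← map_mul, ← map_mul, ← map_mul, ← map_mul, vbS_braid i j h]
  | rho_comm i j h =>
    simp only [map_mul, FreeGroup.lift_apply_of, fV]
    rw [← map_mul, ← map_mul, vbS_comm i j h]
  | sigma_rho_comm i j h =>
    simp only [map_mul, FreeGroup.lift_apply_of, fV]
    rw [inr_inl]
    congr 2
    have hap := ga_apart i j h
    congr 1
    apply Subtype.ext
    refine Prod.ext ?_ ?_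
    · show (ga i).1.1 = vbS j (ga i).1.1
      exact (Equiv.swap_apply_of_ne_of_ne hap.1 hap.2.1).symm
    · show (ga i).1.2 = vbS j (ga i).1.2
      exact (Equiv.swap_apply_of_ne_of_ne hap.2.2.1 hap.2.2.2).symm
  | mixed i j h =>
    simp only [map_mul, FreeGroup.lift_apply_of, fV]
    rw [← map_mul, inr_inl, mul_assoc, ← map_mul]
    congr 3
    have hn := ga_next i j h
    have e1 : posR i = posL j := hn.1
    have hLR : posL j ≠ posR j := (ga j).2
    have hLi : posL i ≠ posR i := (ga i).2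
    have hLj : posL i ≠ posR j := hn.2
    apply Subtype.ext
    refine Prod.ext ?_ ?_
    · show vbS i (vbS j (posL i)) = posL j
      unfold vbS
      rw [Equiv.swap_apply_of_ne_of_ne (by rw [← e1]; exact hLi) hLj, Equiv.swap_apply_left, e1]
    · show vbS i (vbS j (posR i)) = posR j
      unfold vbS
      rw [e1, Equiv.swap_apply_left, Equiv.swap_apply_of_ne_of_ne hLj.symm (by
        exact hLR.symm)]

/-- the homomorphism of the virtual braid group -/
noncomputable def VBhom (n : ℕ) : VB n →* VX (Fin n) :=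
  PresentedGroup.toGroup (f := fV n) (by
    rintro r ⟨u, v, h, rfl⟩
    rw [map_mul, map_inv, fV_rel h, mul_inv_cancel])

theorem VBhom_sig {n : ℕ} (i : Fin (n - 1)) :
    VBhom n (sig i) = SemidirectProduct.inl (Sh.gen _ _ (ga i)) := by
  simp [VBhom, sig, fV]

theorem VBhom_rh {n : ℕ} (i : Fin (n - 1)) :
    VBhom n (rh i) = SemidirectProduct.inr (vbS i) := by
  simp [VBhom, rh, fV]

/-- the inverse homomorphism -/
theorem exists_inv (n : ℕ) (hn : 2 ≤ n) : ∃ ψ : VX (Fin n) →* VB n,
    (∀ i : Fin (n - 1), ψ (SemidirectProduct.inl (Sh.gen _ _ (ga i))) = sig i) ∧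
    ∀ i : Fin (n - 1), ψ (SemidirectProduct.inr (vbS i)) = rh i := by
  classical
  obtain ⟨τ, L, hτ, hL, hconj, -, -, -⟩ := pure_generators n hn
  obtain ⟨δ, hδ⟩ : ∃ δ : Fin n → Fin n → VB n, ∀ i j, δ i j = τ (Equiv.swap i j) * L i j :=
    ⟨fun i j => τ (Equiv.swap i j) * L i j, fun _ _ => rfl⟩
  have hδc : ∀ (π : Equiv.Perm (Fin n)) (i j : Fin n), i ≠ j →
      δ (π i) (π j) = τ π * δ i j * (τ π)⁻¹ := by
    intro π i j hij
    rw [hδ, hδ, ← hconj π i j hij, Equiv.swap_apply_apply, map_mul, map_mul, map_inv]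
    group
  have hδs : ∀ i : Fin (n - 1), δ (posL i) (posR i) = sig i := by
    intro i
    rw [hδ, hτ, hL, ← mul_assoc, r_sq, one_mul]
  have hbr : ∀ i j k : Fin n, i ≠ j → i ≠ k → j ≠ k →
      δ i j * δ j k * δ i j = δ j k * δ i j * δ j k := by
    intro i j k hij hik hjk
    have hn3 : 3 ≤ n := by
      have h1 : ({i, j, k} : Finset (Fin n)).card = 3 := Finset.card_eq_three.2
        ⟨i, j, k, hij, hik, hjk, rfl⟩
      have h2 := Finset.card_le_univ ({i, j, k} : Finset (Fin n))
      rw [h1, Fintype.card_fin] at h2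
      exact h2
    obtain ⟨a, b, hab⟩ : ∃ a b : Fin (n - 1), (b : ℕ) = a + 1 :=
      ⟨⟨0, by omega⟩, ⟨1, by omega⟩, rfl⟩
    have hnx := ga_next a b hab
    have e1 : posR a = posL b := hnx.1
    have hb : posL b ≠ posR b := (ga b).2
    have ha : posL a ≠ posR a := (ga a).2
    obtain ⟨π, h1, h2, h3⟩ := perm3 ha hnx.2 (by rw [ga_snd, e1]; exact hb) hij hik hjk
    rw [ga_snd] at h3
    have e2 : δ i j = τ π * sig a * (τ π)⁻¹ := by
      rw [← hδs, ← hδc π _ _ ha, h1, h2]
    have e3 : δ j k = τ π * sig b * (τ π)⁻¹ := by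
      rw [← hδs, ← hδc π _ _ hb, ← e1, h2, h3]
    have e4 := s_braid a b hab
    rw [e2, e3]
    calc _ = τ π * (sig a * sig b * sig a) * (τ π)⁻¹ := by group
      _ = τ π * (sig b * sig a * sig b) * (τ π)⁻¹ := by rw [e4]
      _ = _ := by group
  have hcm : ∀ i j k l : Fin n, i ≠ j → k ≠ l → i ≠ k → i ≠ l → j ≠ k → j ≠ l →
      δ i j * δ k l = δ k l * δ i j := by
    intro i j k l hij hkl hik hil hjk hjl
    have hn4 : 4 ≤ n := by
      have h1 : ({i, j, k, l} : Finset (Fin n)).card = 4 := by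
        rw [Finset.card_eq_succ]
        refine ⟨i, {j, k, l}, by simp [hij, hik, hil], rfl, ?_⟩
        exact Finset.card_eq_three.2 ⟨j, k, l, hjk, hjl, hkl, rfl⟩
      have h2 := Finset.card_le_univ ({i, j, k, l} : Finset (Fin n))
      rw [h1, Fintype.card_fin] at h2
      exact h2
    obtain ⟨a, b, hab⟩ : ∃ a b : Fin (n - 1), (a : ℕ) + 2 ≤ b :=
      ⟨⟨0, by omega⟩, ⟨2, by omega⟩, le_rfl⟩
    have hap := ga_apart a b (Or.inl hab)
    have hb : posL b ≠ posR b := (ga b).2
    have ha : posL a ≠ posR a := (ga a).2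
    obtain ⟨π, h1, h2, h3, h4⟩ := perm4 ha hap.1 hap.2.1 hap.2.2.1 hap.2.2.2 hb hij hik hil hjk
      hjl hkl
    rw [ga_fst] at h3
    rw [ga_snd] at h4
    have e2 : δ i j = τ π * sig a * (τ π)⁻¹ := by
      rw [← hδs, ← hδc π _ _ ha, h1, h2]
    have e3 : δ k l = τ π * sig b * (τ π)⁻¹ := by
      rw [← hδs, ← hδc π _ _ hb, h3, h4]
    have e4 := s_comm a b (Or.inl hab)
    rw [e2, e3]
    calc _ = τ π * (sig a * sig b) * (τ π)⁻¹ := by group
      _ = τ π * (sig b * sig a) * (τ π)⁻¹ := by rw [e4]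
      _ = _ := by group
  let fn : KB (Fin n) →* VB n := Sh.lift (fun a => δ a.1.1 a.1.2) (by
    intro a b
    rw [arcM_apply]
    by_cases hab : a = b
    · rw [if_pos hab, hab]
    rw [if_neg hab]
    by_cases hnx : a.Next b ∨ b.Next a
    · rw [if_pos hnx, alt_three, alt_three]
      rcases hnx with h | h
      · have h5 := hbr a.1.1 a.1.2 b.1.2 a.2 h.2 (by rw [h.1]; exact b.2)
        rw [← h.1]
        exact h5
      · have h5 := hbr b.1.1 b.1.2 a.1.2 b.2 h.2 (by rw [h.1]; exact a.2)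
        rw [← h.1]
        exact h5.symm
    rw [if_neg hnx]
    by_cases hap : a.Apart b
    · rw [if_pos hap, alt_two, alt_two]
      exact hcm _ _ _ _ a.2 b.2 hap.1 hap.2.1 hap.2.2.1 hap.2.2.2
    · rw [if_neg hap, alt_zero, alt_zero]) (fun _ => pow_zero _)
  have hfn : ∀ a, fn (Sh.gen _ _ a) = δ a.1.1 a.1.2 := fun a => Sh.lift_gen _ _ _ _
  let ψ : VX (Fin n) →* VB n := SemidirectProduct.lift fn τ (by
    intro π
    apply Sh.hom_ext
    intro a
    show fn (mvA π (Sh.gen _ _ a)) = τ π * fn (Sh.gen _ _ a) * (τ π)⁻¹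
    rw [mvA_gen, hfn, hfn]
    exact hδc π _ _ a.2)
  refine ⟨ψ, fun i => ?_, fun i => ?_⟩
  · show SemidirectProduct.lift fn τ _ (SemidirectProduct.inl _) = _
    rw [SemidirectProduct.lift_inl, hfn]
    exact hδs i
  · show SemidirectProduct.lift fn τ _ (SemidirectProduct.inr _) = _
    rw [SemidirectProduct.lift_inr]
    exact hτ i

theorem VBhom_injective (n : ℕ) (hn : 2 ≤ n) : Function.Injective (VBhom n) := by
  obtain ⟨ψ, h1, h2⟩ := exists_inv n hn
  have h3 : ψ.comp (VBhom n) = MonoidHom.id _ := by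
    apply PresentedGroup.ext
    rintro (i | i)
    · show ψ (VBhom n (sig i)) = sig i
      rw [VBhom_sig, h1]
    · show ψ (VBhom n (rh i)) = rh i
      rw [VBhom_rh, h2]
  intro x y hxy
  have e1 := DFunLike.congr_fun h3 x
  have e2 := DFunLike.congr_fun h3 y
  rw [MonoidHom.comp_apply, MonoidHom.id_apply] at e1 e2
  rw [← e1, ← e2, hxy]

/-- **virtual braid groups** -/
theorem VB_C {C : ∀ (G : Type) [Group G], Prop} (hC : ClosedE C)
    (hW : ∀ (B : Type) [Finite B] (M : CoxeterMatrix B), C M.Group)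
    (hA : ∀ n, C (Sh (CoxeterMatrix.A n) fun _ => 0)) (hA' : ∀ n, C (Sh (affA n) fun _ => 0))
    (n : ℕ) : C (VB n) := by
  rcases Nat.lt_or_ge n 2 with hn | hn
  · have h1 : IsEmpty (VGen n) := ⟨fun x => by
      cases x with
      | sigma i => exact absurd i.2 (by omega)
      | rho i => exact absurd i.2 (by omega)⟩
    have h2 : Subsingleton (VB n) := by
      refine ⟨fun x y => ?_⟩
      obtain ⟨u, rfl⟩ := PresentedGroup.mk_surjective _ x
      obtain ⟨v, rfl⟩ := PresentedGroup.mk_surjective _ y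
      rw [Subsingleton.elim u v]
    exact Pool.Agent.Y812.SS.C_subsingleton hC.base _
  · exact hC.base.of_injective _ _ _ (VBhom_injective n hn) (VX_C hC _ (arc_C hC hW hA hA' _))

end Pool.Agent.W2helper12.VA
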